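import Pool.Agent.V7H55.ZC.Gal

/-!
# Bounds for `l`-torsion for every Galois field with a centreless Galois group

For every `l ≥ 1` we prove, unconditionally and for EVERY number field `L` of degree `n` which is
Galois over `ℚ` and whose Galois group has trivial centre (for example all the groups `S_n`, `n ≥ 3`,
and all Frobenius groups), that

  `|Cl_L[l]| ≤ C D ^ (1 / 2 - c / l ^ t)`,  `D = |disc L|`,  `t = ⌊log₂ n⌋`,

where `c > 0` depends only on `n` and `C` only on `n` and `l`.  More generally this holds for all
fields `L` (not necessarily Galois) such that the group `G` of the normal closure `M`, acting on the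
embeddings of `L` in `M`, satisfies the condition `Admissible` below.  For Galois fields the
condition follows from the simple condition `GroupCondition`, which also holds for the dihedral
groups of order at least four and the noncyclic elementary abelian groups.

Proof: let `B` be a small power of `D`, and let `R` be the group of all elements of `G` that fix all
integers of `M` all of whose absolute values are at most `B`.  By the pigeonhole principle we may
choose `B` such that nothing changes if `B` is replaced by a large power of `B`.  Then `R ≠ 1`, and
the field fixed by `R` has a small discriminant.  A small prime `p` with Frobenius element `σ` gives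
a useful prime ideal of `L` if `σ` has an orbit on the embeddings that is not invariant under `R`.
If this fails for some `σ`, then we have to find many small primes such that `σ` is outside a
subgroup `H ≥ R` that contains all commutators.  The field fixed by `H` is abelian and has a small
discriminant.  By the Kronecker-Weber theorem (for extensions of prime degree) and a sieve for the
integers `m` with the weights `1` and `1 + Re χ(m)` there are many such primes.  Now the argument of
Ellenberg and Venkatesh applies: the quotients of the useful prime ideals of small norm are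
`l`-th powers of few classes, since otherwise we get elements of `M` of small absolute values that
are not fixed by `R`.
-/

set_option autoImplicit false

open scoped NumberField
open NumberField

namespace Pool.Agent.Results.MP_695920_nt.CentrelessGroupsH55

/-- `σ` absorbs the subgroup `R` of the Galois group: every orbit of `σ` on the set of the embeddings
`τ` of `L` in `M` is invariant under `R`. -/
def Absorbs (L : Type) {M : Type} [Field L] [NumberField L] [Field M] [NumberField M]
    (R : Subgroup Gal(M/ℚ)) (σ : Gal(M/ℚ)) : Prop :=
  ∀ τ : L →ₐ[ℚ] M, ∀ ν ∈ R, ∃ k : ℕ,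
    (ν : M →ₐ[ℚ] M).comp τ = ((σ ^ k : Gal(M/ℚ)) : M →ₐ[ℚ] M).comp τ

/-- For every nontrivial normal subgroup `R` of the Galois group, no element absorbs `R`, or `R` and
all the elements that absorb `R` are contained in a proper subgroup `H` that contains all
commutators. -/
def Admissible (L M : Type) [Field L] [NumberField L] [Field M] [NumberField M] : Prop :=
  ∀ R : Subgroup Gal(M/ℚ), R.Normal → R ≠ ⊥ →
    (∀ σ, ¬ Absorbs L R σ) ∨ ∃ H : Subgroup Gal(M/ℚ), H ≠ ⊤ ∧ commutator Gal(M/ℚ) ≤ H ∧ R ≤ H ∧
      ∀ σ, Absorbs L R σ → σ ∈ H

/-- For every normal subgroup `P` of prime order, the elements `σ` such that `P` is contained in the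
group generated by `σ` are in a proper subgroup that contains all commutators. -/
def GroupCondition (G : Type) [Group G] : Prop :=
  ∀ P : Subgroup G, P.Normal → (Nat.card P).Prime → ∃ H : Subgroup G, H ≠ ⊤ ∧
    commutator G ≤ H ∧ ∀ σ : G, P ≤ Subgroup.zpowers σ → σ ∈ H

/-- Let `n ≥ 2` and `m`.  There is `c > 0` such that for every `l ≥ 1` there is a constant `C` with
the following property.  For every number field `L` of degree `n` and absolute discriminant `D`, at
most `C D ^ (1 / 2 - c / l ^ t)`, `t = ⌊log₂ m⌋`, ideal classes of `L` are killed by `l`, if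

* `L` is Galois over `ℚ`, `m = n`, and its Galois group has trivial centre, or satisfies
  `GroupCondition`, or
* the normal closure `M` of `L` has degree `m` over `ℚ` and `Admissible L M` holds. -/
theorem result (n m : ℕ) (hn : 2 ≤ n) : ∃ c : ℝ, 0 < c ∧ ∀ l : ℕ, 1 ≤ l → ∃ C : ℝ, 0 < C ∧
    ∀ (L : Type) [Field L] [NumberField L], Module.finrank ℚ L = n →
    (IsGalois ℚ L ∧ m = n ∧
      (Subgroup.center Gal(L/ℚ) = ⊥ ∨ GroupCondition Gal(L/ℚ))) ∨
    (∃ (M : Type) (_ : Field M) (_ : NumberField M), IsNormalClosure ℚ L M ∧
      Module.finrank ℚ M = m ∧ Admissible L M) →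
    (Nat.card {c : ClassGroup (𝓞 L) // c ^ l = 1} : ℝ) ≤
      C * |(discr L : ℝ)| ^ (1 / 2 - c / l ^ Nat.log 2 m : ℝ) := by
  obtain ⟨c, hc, H⟩ := Pool.Agent.V7H55.ZC.zc_bound n m hn
  refine ⟨c, hc, fun l hl => ?_⟩
  obtain ⟨C, hC0, hC⟩ := H l hl
  refine ⟨C, hC0, ?_⟩
  intro L _ _ hL hcond
  have h2 : ∃ (M : Type) (_ : Field M) (_ : NumberField M), IsNormalClosure ℚ L M ∧
      Module.finrank ℚ M = m ∧ Pool.Agent.V7H55.ZC.Cond L M := by
    rcases hcond with ⟨hgal, hmn, hG⟩ | h
    · refine ⟨L, inferInstance, inferInstance, Pool.Agent.V7H55.GG.isNormalClosure_self,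
        by rw [hL, hmn], Pool.Agent.V7H55.ZC.cond_of_primeCond ?_⟩
      rcases hG with h | h
      · exact Pool.Agent.V7H55.ZC.primeCond_of_center h
      · exact h
    · exact h
  obtain ⟨M, _, _, hM, hm, hMc⟩ := h2
  rw [Pool.Agent.V7H55.LT.abs_discr_eq]
  exact hC L M hL hm hMc

end Pool.Agent.Results.MP_695920_nt.CentrelessGroupsH55
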