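import Pool.Agent.V7H55.GG.Cyc

/-!
# Bounds for `l`-torsion for every field with a given Galois group, for all `l`

For a number field `L` of degree `n` let `M` be its normal closure, `m = [M : ℚ]`,
`G = Gal(M / ℚ)`, acting on the `n` embeddings of `L` in `M`.  We prove, unconditionally and for
EVERY such field (no exceptional fields), for all `l ≥ 1` at the same time,

  `|Cl_L[l]| ≤ C D ^ (1 / 2 - 1 / (n (m - 1) l) + ε)`,  `D = |disc L|`,

with `C` depending on `n`, `m` and `ε` only, if the permutation group `G` has the following property: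
every `σ` in `G` has an orbit that is not invariant under any nontrivial normal subgroup of `G`.

If `L` is Galois over `ℚ` this means that `G` has no nontrivial cyclic normal subgroup.  This holds
for the groups `S_n` and `A_n` with `n ≥ 4`, for all nonabelian simple groups and many others.

Proof: let `p` be a prime that does not divide `D`, with Frobenius element `σ`, and let `P` be the
prime ideal of `L` above `p` that corresponds to the orbit of the assumption.  If `(P / P') ^ l` is
generated by an element `α` whose conjugates have balanced absolute values, then the conjugates of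
`α` are small, and by the assumption they generate `M`.  A combination of them with small
coefficients generates `M`, so the discriminant of `M` is small, a contradiction.  So all the small
primes `p` give points far apart, as in the argument of Ellenberg and Venkatesh.
-/

set_option autoImplicit false

open scoped NumberField
open NumberField

namespace Pool.Agent.Results.MP_695920_nt.GaloisGroupsH55

/-- Every `σ` in the Galois group of the normal closure `M` of `L` has an orbit on the set of the
embeddings of `L` in `M`, the orbit of `τ`, which is not invariant under any nontrivial normal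
subgroup `N`: there is `ν` in `N` such that `ν ∘ τ` is not of the form `σ ^ k ∘ τ`. -/
def GoodOrbits (L M : Type) [Field L] [NumberField L] [Field M] [NumberField M] : Prop :=
  ∀ σ : Gal(M/ℚ), ∃ τ : L →ₐ[ℚ] M, ∀ N : Subgroup Gal(M/ℚ), N.Normal → N ≠ ⊥ →
    ∃ ν ∈ N, ∀ k : ℕ, (ν : M →ₐ[ℚ] M).comp τ ≠ ((σ ^ k : Gal(M/ℚ)) : M →ₐ[ℚ] M).comp τ

/-- `L` is Galois over `ℚ` and its Galois group has no nontrivial cyclic normal subgroup. -/
def NoCyclicNormal (L : Type) [Field L] [NumberField L] : Prop :=
  IsGalois ℚ L ∧ ∀ N : Subgroup Gal(L/ℚ), N.Normal → IsCyclic N → N = ⊥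

/-- Let `n ≥ 2`, `m` and `ε > 0`.  There is a constant `C` such that for all `l ≥ 1` and all number
fields `L` of degree `n` and absolute discriminant `D`, at most
`C D ^ (1 / 2 - 1 / (n (m - 1) l) + ε)` ideal classes of `L` are killed by `l`, if

* the normal closure `M` of `L` has degree `m` over `ℚ` and `GoodOrbits L M` holds, or
* `L` is Galois over `ℚ`, `m = n`, and its Galois group has no nontrivial cyclic normal subgroup. -/
theorem result (n m : ℕ) (hn : 2 ≤ n) (ε : ℝ) (hε : 0 < ε) : ∃ C : ℝ, 0 < C ∧ ∀ l : ℕ, 1 ≤ l →
    ∀ (L : Type) [Field L] [NumberField L], Module.finrank ℚ L = n →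
    (∃ (M : Type) (_ : Field M) (_ : NumberField M), IsNormalClosure ℚ L M ∧
      Module.finrank ℚ M = m ∧ GoodOrbits L M) ∨ (m = n ∧ NoCyclicNormal L) →
    (Nat.card {c : ClassGroup (𝓞 L) // c ^ l = 1} : ℝ) ≤
      C * |(discr L : ℝ)| ^ (1 / 2 - 1 / (n * (m - 1) * l) + ε : ℝ) := by
  rcases Nat.lt_or_ge m 2 with hm | hm
  · refine ⟨1, one_pos, ?_⟩
    intro l hl L _ _ hL hM
    exfalso
    rcases hM with ⟨M, _, _, hM, hm', -⟩ | ⟨hmn, -⟩
    · have hc := Pool.Agent.V7H55.LT.card_hom L M
      obtain ⟨τ⟩ : Nonempty (L →ₐ[ℚ] M) := by
        rw [← Fintype.card_pos_iff, hc, hL]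
        omega
      have h1 := LinearMap.finrank_le_finrank_of_injective (f := τ.toLinearMap) τ.injective
      omega
    · omega
  · obtain ⟨C, hC0, hC⟩ := Pool.Agent.V7H55.GG.good_bound n hn m hm ε hε
    refine ⟨C, hC0, ?_⟩
    intro l hl L _ _ hL hM
    have h2 : ∃ (M : Type) (_ : Field M) (_ : NumberField M), IsNormalClosure ℚ L M ∧
        Module.finrank ℚ M = m ∧ Pool.Agent.V7H55.GG.Good L M := by
      rcases hM with h | ⟨hmn, hgal, hN⟩
      · exact h
      · exact ⟨L, inferInstance, inferInstance, Pool.Agent.V7H55.GG.isNormalClosure_self,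
          by rw [hL, hmn], Pool.Agent.V7H55.GG.good_of_galois hN⟩
    have h1 := hC l hl L hL h2
    have e : (((n * (m - 1) : ℕ) : ℝ) * l) = n * (m - 1) * l := by
      rw [Nat.cast_mul, Nat.cast_sub (by omega), Nat.cast_one]
    rw [e] at h1
    exact h1

end Pool.Agent.Results.MP_695920_nt.GaloisGroupsH55
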