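import Pool.Agent.V7H54.N.FnN

/-!
# Two-torsion in the class groups of the cubic fields `ℚ[x] / (x³ + b x² + c x + t)`, `b` and `c` fixed

Let `b`, `c` be ANY integers with `b² ≠ 3 c` (that is, `x³ + b x² + c x` is not of the form
`(x - u)³ + v`). For an integer `t` consider the cubic field `K_t` generated by a root of
`f_t = x³ + b x² + c x + t`, if `ℤ[x] / (f_t)` is its ring of integers (for instance if the discriminant of `f_t`
has no square factor). This is a family with ONE parameter: about `X ^ (1/2)` fields with discriminant
at most `X`, of all the `≫ X` cubic fields (`≫ X ^ (5/6)` monogenic ones).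

Theorem. The average number of ideal classes killed by `2` is bounded in this family: there is `C = C(b, c)`
such that for all `T ≥ 1` the sum of `|Cl(K_t)[2]|` over the `t` with `|t| ≤ T` is at most `C T` (all but
finitely many `t` have a negative discriminant; the others are left out).

So for `(n, ℓ) = (3, 2)` the bound of the conjecture, and even a bound which does not depend on the field,
holds on average over a thin family: for every `δ > 0` the bound `|Cl(K_t)[2]| ≤ C / δ` holds for all but
`δ T` of the `t` with `|t| ≤ T`, and for every `ε > 0` the bound `|Cl(K_t)[2]| ≤ T ^ ε` holds for all but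
`C T ^ (1 - ε)` of them.

What was known: Bhargava's theorem for all cubic fields ordered by discriminant, and the theorems of
Bhargava-Hanke-Shankar and Shankar-Siad-Swaminathan for families of monogenic cubic fields with two
parameters. For a family with one parameter an average over the 2-torsion was known to me only for pure
cubic fields and the like, not for a family as here.

The proof. An ideal class of order two gives an ideal `I` with `I² = (γ)`, hence a pair of integral ternary
quadratic forms `(x y / γ)`, `(θ x y / γ)`, with a generator `θ` of trace zero of the field: the first one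
has determinant `± 1` and an isotropic vector, as the field is not totally real. The reduction theory of
project PF gives a basis of a sublattice of bounded index in which the first form is antidiagonal and
the entries of the second are bounded by `C T ^ (1/3)`, with weights `4 ^ (-k)`, ..., `4 ^ k` in the cusp.
The second coefficient of the characteristic polynomial does not depend on `t`: this is the equation
`p₁ a e + p₂ b d + p₃ c² = M` of a quadric, with `M ≠ 0` by the assumption, and one has to count its integral
points in a region which goes to infinity in the cusp. The files `A/Gl`, `A/Gm`, `A/Sl`, `A/Rg`,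
`N/QcN` give an upper bound of the right order in each box up to an error term `X ^ (5/2) τ ^ (3/2) log X`,
`τ = 2 ^ k`, and every class gives `2 ^ k` points in the box of level `k` (`N/CnN`), by a unipotent
change of the basis. The forms determine `γ` up to squares (`N/SepN`), and this determines the ideal class
(`N/ClN`).

Files `Pool/Agent/V7H54/A/` and `Pool/Agent/V7H54/N/` (helper54).
-/

set_option autoImplicit false
set_option linter.all false

namespace Pool.Agent.Results.MP_695920_nt.OneParameterCubicH54

open NumberField

/-- Minus the discriminant of `x³ + b x² + c x + t`. -/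
def negDisc (b c t : ℤ) : ℤ :=
  4 * c ^ 3 + 27 * t ^ 2 + 4 * b ^ 3 * t - b ^ 2 * c ^ 2 - 18 * b * c * t

/-- `K` is a cubic number field, `η` is an algebraic integer in `K` with `η³ + b η² + c η + t = 0`, and
the ring of integers of `K` is `ℤ[η]`. -/
structure IntegersGeneratedBy (b c t : ℤ) (K : Type) [Field K] [NumberField K] (η : 𝓞 K) :
    Prop where
  cubic : Module.finrank ℚ K = 3
  root : η ^ 3 + b * η ^ 2 + c * η + t = 0
  generated : Algebra.adjoin ℤ {η} = ⊤

/-- The number of ideal classes of `K` killed by `2`. -/
noncomputable def classTwo (K : Type) [Field K] [NumberField K] : ℕ :=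
  Nat.card {x : ClassGroup (𝓞 K) // x ^ 2 = 1}

/-- For all integers `b`, `c` with `b² ≠ 3 c` there is `C` such that for all `T ≥ 1` and all sets `J` of integers
`t` with `|t| ≤ T` for which there is a cubic field `K t` with ring of integers `ℤ[η]`,
`η³ + b η² + c η + t = 0`, of negative discriminant, the sum over `t` in `J` of `|Cl(K t)[2]|` is at most
`C T`. -/
theorem result (b c : ℤ) (hbc : b ^ 2 ≠ 3 * c) :
    ∃ C : ℝ, ∀ T : ℝ, 1 ≤ T → ∀ (J : Finset ℤ) (K : ℤ → Type) [∀ t, Field (K t)]
      [∀ t, NumberField (K t)] (η : ∀ t, 𝓞 (K t)),
      (∀ t ∈ J, |(t : ℝ)| ≤ T ∧ 0 < negDisc b c t ∧ IntegersGeneratedBy b c t (K t) (η t)) →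
      ∑ t ∈ J, (classTwo (K t) : ℝ) ≤ C * T := by
  obtain ⟨C, -, h⟩ := Pool.Agent.V7H54.N.main_cl hbc
  refine ⟨C, fun T hT J K _ _ η hJ => h T hT J K η fun t ht => ?_⟩
  obtain ⟨h1, h2, h3⟩ := hJ t ht
  refine ⟨h1, ?_, h3.cubic, h3.root, h3.generated⟩
  have e : 4 * Pool.Agent.V7H54.N.cA b c ^ 3 + 27 * Pool.Agent.V7H54.N.cT b c t ^ 2 =
      729 * negDisc b c t := by
    unfold Pool.Agent.V7H54.N.cA Pool.Agent.V7H54.N.cT negDisc
    ring
  rw [e]
  omega

end Pool.Agent.Results.MP_695920_nt.OneParameterCubicH54
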