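import Pool.Agent.V7H55.GG.Cyc

/-!
# Bounds for `l`-torsion for every field whose primes cannot be inert, for all `l`

Let `L` be a number field of degree `n` without fields between `ℚ` and `L`, such that the Galois
group of its normal closure does not contain an `n`-cycle (in the action on the `n` embeddings of
`L`): for example any quartic field with group `A₄`, any field of even degree `n` with group `A_n`,
any octic field with group `PSL(2, 7)` or `AGL(1, 8)`.  We prove, unconditionally and for EVERY such
field, for all `l ≥ 1` at the same time,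

  `|Cl_L[l]| ≤ C D ^ (1 / 2 - 1 / (2 f (n - 1) l) + ε)`,  `D = |disc L|`, `f = ⌊n / 2⌋`,

with `C` depending on `n` and `ε` only; for quartic `A₄` fields this is `D ^ (1 / 2 - 1 / (12 l) + ε)`.
More generally the bound holds for a given `f` if every element of the Galois group has an orbit with
at most `f` elements such that for every proper subfield `E` of `L` the embeddings of `L` that agree
on `E` with a given embedding in the orbit are not all in the orbit.

Proof: a prime ideal `P` of `L` above an unramified prime `p` that corresponds to such an orbit has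
norm at most `p ^ f` and is not the only prime ideal above `P ∩ E` for any proper subfield `E`, so a
generator of `(P / P') ^ l` generates the field; its conjugates cannot all be small if `p` and `p'`
are small powers of `D`.  Now the argument of Ellenberg and Venkatesh applies to all primes.
-/

set_option autoImplicit false

open scoped NumberField
open NumberField

namespace Pool.Agent.Results.MP_695920_nt.PrimitiveFieldsH55

/-- Every `σ` in the Galois group of the normal closure `M` of `L` has an orbit on the set of the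
embeddings of `L` in `M`, the orbit of `τ`, which has at most `f` elements and has the following
property: for every proper subfield `E` of `L` there is an embedding `τ'` of `L` which agrees with
`τ` on `E` and is not in the orbit. -/
def SmallOrbits (L M : Type) [Field L] [NumberField L] [Field M] [NumberField M] (f : ℕ) : Prop :=
  ∀ σ : Gal(M/ℚ), ∃ τ : L →ₐ[ℚ] M,
    (∃ k : ℕ, 1 ≤ k ∧ k ≤ f ∧ ((σ ^ k : Gal(M/ℚ)) : M →ₐ[ℚ] M).comp τ = τ) ∧
    ∀ E : IntermediateField ℚ L, E ≠ ⊤ → ∃ τ' : L →ₐ[ℚ] M, (∀ x ∈ E, τ' x = τ x) ∧
      ∀ k : ℕ, τ' ≠ ((σ ^ k : Gal(M/ℚ)) : M →ₐ[ℚ] M).comp τ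

/-- `L` has no subfields besides `ℚ` and `L`, and no element of the Galois group of the normal
closure `M` permutes the embeddings of `L` in `M` in a single cycle. -/
def NeverInert (L M : Type) [Field L] [NumberField L] [Field M] [NumberField M] : Prop :=
  (∀ E : IntermediateField ℚ L, E = ⊥ ∨ E = ⊤) ∧
  ∀ σ : Gal(M/ℚ), ∃ τ τ' : L →ₐ[ℚ] M, ∀ k : ℕ,
    τ' ≠ ((σ ^ k : Gal(M/ℚ)) : M →ₐ[ℚ] M).comp τ

/-- Let `n ≥ 2`, `f ≥ 1` and `ε > 0`.  There is a constant `C` such that for all `l ≥ 1` and all
number fields `L` of degree `n` and absolute discriminant `D`, at most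
`C D ^ (1 / 2 - 1 / (2 f (n - 1) l) + ε)` ideal classes of `L` are killed by `l`, if `M` is the
normal closure of `L` and `SmallOrbits L M f` holds, or `f = ⌊n / 2⌋` and `NeverInert L M` holds. -/
theorem result (n f : ℕ) (hn : 2 ≤ n) (hf : 1 ≤ f) (ε : ℝ) (hε : 0 < ε) :
    ∃ C : ℝ, 0 < C ∧ ∀ l : ℕ, 1 ≤ l →
    ∀ (L M : Type) [Field L] [NumberField L] [Field M] [NumberField M] [IsNormalClosure ℚ L M],
    Module.finrank ℚ L = n → SmallOrbits L M f ∨ (f = n / 2 ∧ NeverInert L M) →
    (Nat.card {c : ClassGroup (𝓞 L) // c ^ l = 1} : ℝ) ≤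
      C * |(discr L : ℝ)| ^ (1 / 2 - 1 / (2 * f * (n - 1) * l) + ε : ℝ) := by
  obtain ⟨C, hC0, hC⟩ := Pool.Agent.V7H55.GG.small_bound n hn f hf ε hε
  refine ⟨C, hC0, ?_⟩
  intro l hl L M _ _ _ _ _ hL hM
  have h2 : Pool.Agent.V7H55.GG.SmallOrbits L M f := by
    rcases hM with h | ⟨hfn, hprim, hcyc⟩
    · exact h
    · rw [hfn]
      exact Pool.Agent.V7H55.GG.small_of_prim hL hprim hcyc
  have h1 := hC l hl L hL ⟨M, inferInstance, inferInstance, inferInstance, h2⟩
  have e : (((2 * f * (n - 1) : ℕ) : ℝ) * l) = 2 * f * (n - 1) * l := by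
    rw [Nat.cast_mul, Nat.cast_sub (by omega), Nat.cast_one]
    push_cast
    ring
  rw [e] at h1
  exact h1

end Pool.Agent.Results.MP_695920_nt.PrimitiveFieldsH55
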